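import Pool.Agent.Helper66_ML.Stmts2
import Pool.Agent.Helper79_WRA.Basic

/-!
# Squad ML, stage 2: `CubStmt` (cubes modulo `9`) and `SqrStmt` (squares modulo `4`)
-/

open scoped BigOperators

noncomputable section

namespace Pool.Agent.PP.ML.H35

open Pool.Agent.Helper51_AWC Pool.Agent.Helper79_WRA Pool.Agent.PP Pool.Agent.Helper98_CC
open Polynomial

variable {ι : Type}

/-- the reversed product -/
def rv (s : Finset ι) (w : ι → ℂ) : ℂ[X] := ∏ j ∈ s, (1 - C (w j) * X)

theorem coeff_step (a : ℂ) (p : ℂ[X]) (k : ℕ) :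
    ((1 - C a * X) * p).coeff (k + 1) = p.coeff (k + 1) - a * p.coeff k := by
  rw [sub_mul, one_mul, coeff_sub, mul_assoc, coeff_C_mul, coeff_X_mul]

theorem coeff_step0 (a : ℂ) (p : ℂ[X]) : ((1 - C a * X) * p).coeff 0 = p.coeff 0 := by
  rw [sub_mul, one_mul, coeff_sub, mul_assoc, coeff_C_mul, coeff_X_mul_zero, mul_zero, sub_zero]

theorem rv_insert [DecidableEq ι] {a : ι} {s : Finset ι} (ha : a ∉ s) (w : ι → ℂ) :
    rv (insert a s) w = (1 - C (w a) * X) * rv s w := by
  rw [rv, Finset.prod_insert ha, rv]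

theorem rv_zero (s : Finset ι) (w : ι → ℂ) : (rv s w).coeff 0 = 1 := by
  classical
  induction s using Finset.induction_on with
  | empty => rw [rv, Finset.prod_empty, coeff_one_zero]
  | insert a s ha ih => rw [rv_insert ha, coeff_step0, ih]

/-- Newton's formula for the squares -/
theorem newton2 (s : Finset ι) (w : ι → ℂ) :
    ∑ j ∈ s, w j ^ 2 = (rv s w).coeff 1 ^ 2 - 2 * (rv s w).coeff 2 := by
  classical
  induction s using Finset.induction_on with
  | empty =>
    rw [rv, Finset.prod_empty, Finset.sum_empty, coeff_one, coeff_one]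
    norm_num
  | insert a s ha ih =>
    rw [Finset.sum_insert ha, ih, rv_insert ha, coeff_step (w a) _ 0, coeff_step (w a) _ 1, rv_zero]
    ring

/-- Newton's formula for the cubes -/
theorem newton3 (s : Finset ι) (w : ι → ℂ) :
    ∑ j ∈ s, w j ^ 3 = -(rv s w).coeff 1 ^ 3 + 3 * ((rv s w).coeff 1 * (rv s w).coeff 2)
      - 3 * (rv s w).coeff 3 := by
  classical
  induction s using Finset.induction_on with
  | empty =>
    rw [rv, Finset.prod_empty, Finset.sum_empty, coeff_one, coeff_one, coeff_one]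
    norm_num
  | insert a s ha ih =>
    rw [Finset.sum_insert ha, ih, rv_insert ha, coeff_step (w a) _ 0, coeff_step (w a) _ 1,
      coeff_step (w a) _ 2, rv_zero]
    ring

theorem rv_rev (s : Finset ι) (w : ι → ℂ) :
    rv s w = (∏ j ∈ s, (X - C (w j))).reverse := by
  classical
  induction s using Finset.induction_on with
  | empty =>
    rw [rv, Finset.prod_empty, Finset.prod_empty]
    rw [← C_1, reverse_C]
  | insert a s ha ih =>
    rw [rv_insert ha, Finset.prod_insert ha, reverse_mul_of_domain, ih]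
    have h : (X - C (w a)).reverse = 1 - C (w a) * X := by
      have h1 : (X - C (w a) : ℂ[X]) = 1 * X + C (-w a) := by rw [C_neg, one_mul, sub_eq_add_neg]
      ext k
      rw [coeff_reverse, natDegree_X_sub_C]
      rcases k with _ | _ | k
      · rw [revAt_le (Nat.zero_le _)]
        simp [coeff_X, coeff_C]
      · rw [revAt_le (le_refl _)]
        simp [coeff_X, coeff_C, coeff_one]
      · rw [revAt_eq_self_of_lt (by omega)]
        simp [coeff_X, coeff_C, coeff_one]
    rw [h]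

theorem rv_mem {ℓ : ℕ} (s : Finset ι) (w : ι → ℂ)
    (h : ∀ i : ℕ, (∏ j ∈ s, (X - C (w j))).coeff i ∈ W0 ℓ) (k : ℕ) :
    (rv s w).coeff k ∈ W0 ℓ := by
  rw [rv_rev, coeff_reverse]
  exact h _

theorem rv_red (M : Ideal (integralClosure ℤ ℂ)) (s : Finset ι) (w c : ι → ℂ)
    (hw : ∀ i ∈ s, IsIntegral ℤ (w i)) (hc : ∀ i ∈ s, IsIntegral ℤ (c i))
    (h : ∀ i ∈ s, red M (w i) = red M (c i)) (k : ℕ) :
    IsIntegral ℤ ((rv s w).coeff k) ∧ IsIntegral ℤ ((rv s c).coeff k) ∧
      red M ((rv s w).coeff k) = red M ((rv s c).coeff k) := by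
  classical
  induction s using Finset.induction_on generalizing k with
  | empty =>
    rw [rv, rv, Finset.prod_empty, Finset.prod_empty, coeff_one]
    have : IsIntegral ℤ (if k = 0 then (1 : ℂ) else 0) := by
      split_ifs
      · exact isIntegral_one
      · exact isIntegral_zero
    exact ⟨this, this, rfl⟩
  | insert a s ha ih =>
    have ih' := fun k => ih (fun i hi => hw i (Finset.mem_insert_of_mem hi))
      (fun i hi => hc i (Finset.mem_insert_of_mem hi))
      (fun i hi => h i (Finset.mem_insert_of_mem hi)) k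
    have hwa := hw a (Finset.mem_insert_self _ _)
    have hca := hc a (Finset.mem_insert_self _ _)
    rw [rv_insert ha, rv_insert ha]
    rcases k with _ | k
    · rw [coeff_step0, coeff_step0]
      exact ih' 0
    · rw [coeff_step, coeff_step]
      obtain ⟨a1, a2, a3⟩ := ih' (k + 1)
      obtain ⟨b1, b2, b3⟩ := ih' k
      refine ⟨a1.sub (hwa.mul b1), a2.sub (hca.mul b2), ?_⟩
      rw [sub_eq_add_neg, sub_eq_add_neg, ← neg_mul, ← neg_mul, red_add a1 (hwa.neg.mul b1),
        red_add a2 (hca.neg.mul b2), red_mul hwa.neg b1, red_mul hca.neg b2, a3, b3]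
      have : red M (-w a) = red M (-c a) := by
        rw [← neg_one_mul, ← neg_one_mul (c a), red_mul isIntegral_one.neg hwa,
          red_mul isIntegral_one.neg hca, h a (Finset.mem_insert_self _ _)]
      rw [this]

theorem W0_int {ℓ : ℕ} (z : ℤ) : (z : ℂ) ∈ W0 ℓ := intCast_mem _ _

theorem rv_int {ℓ : ℕ} (s : Finset ι) (c : ι → ℂ) (hc : ∀ i ∈ s, c i ∈ W0 ℓ) (k : ℕ) :
    (rv s c).coeff k ∈ W0 ℓ := by
  classical
  induction s using Finset.induction_on generalizing k with
  | empty =>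
    rw [rv, Finset.prod_empty, coeff_one]
    split_ifs
    · exact one_mem _
    · exact zero_mem _
  | insert a s ha ih =>
    have ih' := fun k => ih (fun i hi => hc i (Finset.mem_insert_of_mem hi)) k
    rw [rv_insert ha]
    rcases k with _ | k
    · rw [coeff_step0]
      exact ih' 0
    · rw [coeff_step]
      exact sub_mem (ih' _) (mul_mem (hc a (Finset.mem_insert_self _ _)) (ih' _))

theorem LD_self (ℓ : ℕ) (M : Ideal (integralClosure ℤ ℂ)) [M.IsMaximal] : LD M ℓ (ℓ : ℂ) := by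
  refine ⟨1, 1, isIntegral_one, ?_, isIntegral_one, by ring⟩
  rw [red_one]
  have : Nontrivial (FF M) := Ideal.Quotient.nontrivial_iff.2 (Ideal.IsMaximal.ne_top inferInstance)
  exact one_ne_zero

/-- the difference of the coefficients is divisible by `ℓ` -/
theorem LD_coeff (tei : TeiStmt) (ℓ : ℕ) [Fact ℓ.Prime] (M : Ideal (integralClosure ℤ ℂ))
    [M.IsMaximal] (hM : (ℓ : integralClosure ℤ ℂ) ∈ M) (s : Finset ι) (w c : ι → ℂ)
    (hw : ∀ i ∈ s, IsIntegral ℤ (w i)) (hc : ∀ i ∈ s, IsIntegral ℤ (c i))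
    (hcW : ∀ i ∈ s, c i ∈ W0 ℓ)
    (h : ∀ i ∈ s, red M (w i) = red M (c i))
    (hP : ∀ i : ℕ, (∏ j ∈ s, (X - C (w j))).coeff i ∈ W0 ℓ) (k : ℕ) :
    LD M ℓ ((rv s w).coeff k - (rv s c).coeff k) := by
  obtain ⟨h1, h2, h3⟩ := rv_red M s w c hw hc h k
  apply (tei ℓ M hM).2.2 _ (sub_mem (rv_mem s w hP k) (rv_int s c hcW k))
  rw [sub_eq_add_neg, red_add h1 h2.neg, h3, ← red_add h2 h2.neg, add_neg_cancel, red_zero]

/-- CUB: cubes modulo `9`. -/
theorem cub (tei : TeiStmt) (lda : LdaStmt) : CubStmt := by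
  classical
  intro M _ hM ι s w hw hr hP
  have : Fact (Nat.Prime 3) := ⟨Nat.prime_three⟩
  let c : ι → ℂ := fun i => if red M (w i) = -1 then -1 else 0
  have hc : ∀ i ∈ s, IsIntegral ℤ (c i) := by
    intro i _
    by_cases h : red M (w i) = -1
    · simp only [c, if_pos h]; exact isIntegral_one.neg
    · simp only [c, if_neg h]; exact isIntegral_zero
  have hcW : ∀ i ∈ s, c i ∈ W0 3 := by
    intro i _
    by_cases h : red M (w i) = -1
    · simp only [c, if_pos h]; exact neg_mem (one_mem _)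
    · simp only [c, if_neg h]; exact zero_mem _
  have hred1 : red M (-1) = -1 := by
    have := red_add (M := M) isIntegral_one isIntegral_one.neg
    rw [add_neg_cancel, red_zero, red_one] at this
    exact (neg_eq_of_add_eq_zero_right this.symm).symm
  have h : ∀ i ∈ s, red M (w i) = red M (c i) := by
    intro i hi
    by_cases h : red M (w i) = -1
    · simp only [c, if_pos h]; rw [h, hred1]
    · simp only [c, if_neg h]; rw [red_zero]
      rcases hr i hi with h' | h'
      · exact h'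
      · exact absurd h' h
  obtain ⟨Ladd, Lmul, Lint, -, -⟩ := lda 3 M hM
  have L3 : LD M 3 (3 : ℂ) := by
    have := LD_self 3 M
    rwa [Nat.cast_ofNat] at this
  have D := fun k => LD_coeff tei 3 M hM s w c hw hc hcW h hP k
  obtain ⟨i1, j1, -⟩ := rv_red M s w c hw hc h 1
  obtain ⟨i2, j2, -⟩ := rv_red M s w c hw hc h 2
  have hsum : ∑ i ∈ s, c i ^ 3 = -((s.filter fun i => red M (w i) = -1).card : ℂ) := by
    rw [Finset.card_filter, Nat.cast_sum, ← Finset.sum_neg_distrib]
    apply Finset.sum_congr rfl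
    intro i _
    by_cases h : red M (w i) = -1
    · simp only [c, if_pos h]; norm_num
    · simp only [c, if_neg h]; norm_num
  have e : ∑ i ∈ s, w i ^ 3 + ((s.filter fun i => red M (w i) = -1).card : ℂ)
      = ∑ i ∈ s, w i ^ 3 - ∑ i ∈ s, c i ^ 3 := by
    rw [hsum]; ring
  have d1 := D 1
  have d2 := D 2
  have d3 := D 3
  set a1 := (rv s w).coeff 1
  set a2 := (rv s w).coeff 2
  set a3 := (rv s w).coeff 3
  set b1 := (rv s c).coeff 1
  set b2 := (rv s c).coeff 2
  set b3 := (rv s c).coeff 3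
  have key : LD M (3 * 3) (∑ i ∈ s, w i ^ 3 - ∑ i ∈ s, c i ^ 3) := by
    rw [newton3, newton3]
    have t1 : LD M (3 * 3) ((-(b1 ^ 2)) * (3 * (a1 - b1))) :=
      Lint _ _ _ (Lmul 3 3 _ _ L3 d1) (j1.pow 2).neg
    have t2 : LD M (3 * 3) ((-(a1 * b1)) * (3 * (a1 - b1))) :=
      Lint _ _ _ (Lmul 3 3 _ _ L3 d1) (i1.mul j1).neg
    have t3 : LD M (3 * 3) ((-(a1 - b1)) * ((a1 - b1) * (a1 - b1))) :=
      Lint _ _ _ (Lmul 3 3 _ _ d1 d1) (i1.sub j1).neg
    have t4 : LD M (3 * 3) (a1 * (3 * (a2 - b2))) := Lint _ _ _ (Lmul 3 3 _ _ L3 d2) i1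
    have t5 : LD M (3 * 3) (b2 * (3 * (a1 - b1))) := Lint _ _ _ (Lmul 3 3 _ _ L3 d1) j2
    have t6 : LD M (3 * 3) ((-1) * (3 * (a3 - b3))) :=
      Lint _ _ _ (Lmul 3 3 _ _ L3 d3) isIntegral_one.neg
    have t7 : LD M (3 * 3) (b1 ^ 2 * (3 * (a1 - b1))) :=
      Lint _ _ _ (Lmul 3 3 _ _ L3 d1) (j1.pow 2)
    have t := Ladd _ _ _ (Ladd _ _ _ (Ladd _ _ _ (Ladd _ _ _ t2 t3) t4) t5) t6
    have e' : -a1 ^ 3 + 3 * (a1 * a2) - 3 * a3 - (-b1 ^ 3 + 3 * (b1 * b2) - 3 * b3)
        = (-(a1 * b1)) * (3 * (a1 - b1)) + (-(a1 - b1)) * ((a1 - b1) * (a1 - b1))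
          + a1 * (3 * (a2 - b2)) + b2 * (3 * (a1 - b1)) + (-1) * (3 * (a3 - b3)) := by
      ring
    rw [e']
    exact t
  rw [e]
  exact key

/-- SQR: squares modulo `4`. -/
theorem sqr (tei : TeiStmt) (lda : LdaStmt) : SqrStmt := by
  classical
  intro M _ hM ι s w hw hr hP
  have : Fact (Nat.Prime 2) := ⟨Nat.prime_two⟩
  let c : ι → ℂ := fun i => if red M (w i) = 1 then 1 else 0
  have hc : ∀ i ∈ s, IsIntegral ℤ (c i) := by
    intro i _
    by_cases h : red M (w i) = 1
    · simp only [c, if_pos h]; exact isIntegral_one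
    · simp only [c, if_neg h]; exact isIntegral_zero
  have hcW : ∀ i ∈ s, c i ∈ W0 2 := by
    intro i _
    by_cases h : red M (w i) = 1
    · simp only [c, if_pos h]; exact one_mem _
    · simp only [c, if_neg h]; exact zero_mem _
  have h : ∀ i ∈ s, red M (w i) = red M (c i) := by
    intro i hi
    by_cases h : red M (w i) = 1
    · simp only [c, if_pos h]; rw [h, red_one]
    · simp only [c, if_neg h]; rw [red_zero]
      rcases hr i hi with h' | h'
      · exact h'
      · exact absurd h' h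
  obtain ⟨Ladd, Lmul, Lint, -, -⟩ := lda 2 M hM
  have L2 : LD M 2 (2 : ℂ) := by
    have := LD_self 2 M
    rwa [Nat.cast_ofNat] at this
  have D := fun k => LD_coeff tei 2 M hM s w c hw hc hcW h hP k
  obtain ⟨i1, j1, -⟩ := rv_red M s w c hw hc h 1
  have hsum : ∑ i ∈ s, c i ^ 2 = ((s.filter fun i => red M (w i) = 1).card : ℂ) := by
    rw [Finset.card_filter, Nat.cast_sum]
    apply Finset.sum_congr rfl
    intro i _
    by_cases h : red M (w i) = 1
    · simp only [c, if_pos h]; norm_num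
    · simp only [c, if_neg h]; norm_num
  rw [← hsum]
  have d1 := D 1
  have d2 := D 2
  set a1 := (rv s w).coeff 1
  set a2 := (rv s w).coeff 2
  set b1 := (rv s c).coeff 1
  set b2 := (rv s c).coeff 2
  have key : LD M (2 * 2) (∑ i ∈ s, w i ^ 2 - ∑ i ∈ s, c i ^ 2) := by
    rw [newton2, newton2]
    have t1 : LD M (2 * 2) (b1 * (2 * (a1 - b1))) := Lint _ _ _ (Lmul 2 2 _ _ L2 d1) j1
    have t2 : LD M (2 * 2) ((a1 - b1) * (a1 - b1)) := Lmul 2 2 _ _ d1 d1
    have t3 : LD M (2 * 2) ((-1) * (2 * (a2 - b2))) :=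
      Lint _ _ _ (Lmul 2 2 _ _ L2 d2) isIntegral_one.neg
    have t := Ladd _ _ _ (Ladd _ _ _ t1 t2) t3
    have e' : a1 ^ 2 - 2 * a2 - (b1 ^ 2 - 2 * b2)
        = b1 * (2 * (a1 - b1)) + (a1 - b1) * (a1 - b1) + (-1) * (2 * (a2 - b2)) := by
      ring
    rw [e']
    exact t
  exact key

end Pool.Agent.PP.ML.H35
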